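import Mathlib
import Pool.Agent.Helper13.RG.Top

/-!
# Rigidity of birational Galois sections over number fields

`k` is a number field, `kb` an algebraic closure of `k`, `Ω ⊇ kb` algebraically closed and algebraic over
the fields `K₁`, `K₂` of transcendence degree one over `k` (function fields of curves).
-/

set_option autoImplicit false

namespace Pool.Agent.Results.MP_8312c9_nt.StrongMultiplicityOne

/-- `s` is a section of the birational Galois group of `K/k`. -/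
def IsSection {k K kb Ω : Type} [Field k] [Field K] [Field kb] [Field Ω] [Algebra k kb] [Algebra kb Ω]
    [Algebra K Ω] (s : (kb ≃ₐ[k] kb) →* (Ω ≃ₐ[K] Ω)) : Prop :=
  Continuous s ∧ ∀ (g : kb ≃ₐ[k] kb) (x : kb), s g (algebraMap kb Ω x) = algebraMap kb Ω (g x)

/-- `s` is geometric: it fixes a valuation ring of `Ω` above a degree-one place of `K/k`. -/
def IsGeometric {k K kb Ω : Type} [Field k] [Field K] [Field kb] [Field Ω] [Algebra k K] [Algebra k kb]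
    [Algebra K Ω] (s : (kb ≃ₐ[k] kb) →* (Ω ≃ₐ[K] Ω)) : Prop :=
  ∃ O : ValuationSubring K, O ≠ ⊤ ∧ (∀ c : k, algebraMap k K c ∈ O) ∧
    (∀ a ∈ O, ∃ c : k, O.valuation (a - algebraMap k K c) < 1) ∧
    ∃ W : ValuationSubring Ω, W.comap (algebraMap K Ω) = O ∧
      ∀ (g : kb ≃ₐ[k] kb) (x : Ω), (s g x ∈ W ↔ x ∈ W)

/-- The Kummer classes `s₁^*(x₁)` and `s₂^*(x₂)` are congruent modulo `v`: for every `n > 0` they are
represented modulo `n`-th powers by elements `b₁`, `b₂` of `k` with `b₁ / b₂ ≡ 1 mod v`. -/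
def CongAt {k K₁ K₂ kb Ω : Type} [Field k] [NumberField k] [Field K₁] [Field K₂] [Field kb] [Field Ω]
    [Algebra k kb] [Algebra k Ω] [Algebra K₁ Ω] [Algebra K₂ Ω]
    (s₁ : (kb ≃ₐ[k] kb) →* (Ω ≃ₐ[K₁] Ω)) (s₂ : (kb ≃ₐ[k] kb) →* (Ω ≃ₐ[K₂] Ω))
    (v : IsDedekindDomain.HeightOneSpectrum (NumberField.RingOfIntegers k)) (x₁ x₂ : Ω) : Prop :=
  ∀ n : ℕ, 0 < n → ∃ (b₁ b₂ : k) (g₁ g₂ : Ω), (∀ g, s₁ g g₁ = g₁) ∧ (∀ g, s₂ g g₂ = g₂) ∧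
    x₁ = algebraMap k Ω b₁ * g₁ ^ n ∧ x₂ = algebraMap k Ω b₂ * g₂ ^ n ∧
    v.valuation k (b₁ / b₂ - 1) < 1

/-- Rigidity (strong multiplicity one). Let `s₁`, `s₂` be sections for `K₁/k`, `K₂/k` which are not
geometric, and let `x₁`, `x₂ ∈ Ω` be nonconstant and fixed by `s₁`, `s₂` (for example `xᵢ ∈ Kᵢ`). If the
Kummer classes `s₁^*(x₁)` and `s₂^*(x₂)` are congruent modulo `v` for a set of places `v` of `k` which
does not have Dirichlet density zero, then there is exactly one automorphism `γ` of `Ω` over `kb` which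
conjugates `s₁` into `s₂`, and it maps `x₁` to `x₂`. -/
theorem result :
  ∀ (k K₁ K₂ kb Ω : Type) [Field k] [NumberField k] [Field K₁] [Field K₂] [Field kb] [Field Ω]
    [Algebra k K₁] [Algebra k K₂] [Algebra k kb] [Algebra kb Ω] [Algebra k Ω] [Algebra K₁ Ω]
    [Algebra K₂ Ω] [IsScalarTower k K₁ Ω] [IsScalarTower k K₂ Ω] [IsScalarTower k kb Ω]
    [Algebra.IsAlgebraic K₁ Ω] [Algebra.IsAlgebraic K₂ Ω] [IsAlgClosure k kb] [IsAlgClosed Ω],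
    (∃ t : K₁, Transcendental k t ∧ Algebra.IsAlgebraic (IntermediateField.adjoin k {t}) K₁) →
    (∃ t : K₂, Transcendental k t ∧ Algebra.IsAlgebraic (IntermediateField.adjoin k {t}) K₂) →
    ∀ (s₁ : (kb ≃ₐ[k] kb) →* (Ω ≃ₐ[K₁] Ω)) (s₂ : (kb ≃ₐ[k] kb) →* (Ω ≃ₐ[K₂] Ω)),
    IsSection s₁ → IsSection s₂ → ¬ IsGeometric s₁ → ¬ IsGeometric s₂ →
    ∀ x₁ x₂ : Ω, (∀ g, s₁ g x₁ = x₁) → (∀ g, s₂ g x₂ = x₂) → x₁ ∉ (algebraMap k Ω).range →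
      x₂ ∉ (algebraMap k Ω).range →
      ¬ NumberField.Set.HasDirichletDensity {v | CongAt s₁ s₂ v x₁ x₂} 0 →
      (∃! γ : Ω ≃ₐ[kb] Ω, ∀ (g : kb ≃ₐ[k] kb) (x : Ω), γ (s₁ g x) = s₂ g (γ x)) ∧
        ∀ γ : Ω ≃ₐ[kb] Ω, (∀ (g : kb ≃ₐ[k] kb) (x : Ω), γ (s₁ g x) = s₂ g (γ x)) → γ x₁ = x₂ := by
  intro k K₁ K₂ kb Ω _ _ _ _ _ _ _ _ _ _ _ _ _ _ _ _ _ _ _ _ ht₁ ht₂ s₁ s₂ hs₁ hs₂ hg₁ hg₂ x₁ x₂
    hx₁ hx₂ hn₁ hn₂ hd
  exact Pool.Agent.Helper13.RG.top_unique ht₁ ht₂ s₁ s₂ hs₁ hs₂ hg₁ hg₂ x₁ x₂ hx₁ hx₂ hn₁ hn₂ hd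

end Pool.Agent.Results.MP_8312c9_nt.StrongMultiplicityOne
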